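import Pool.Agent.Helper3.FKG.Cases

set_option autoImplicit false

open MeasureTheory ENNReal Set

namespace Pool.Agent.Helper3.FKG

/-- `∑ 1/(x j + t)` -/
noncomputable def St {n : ℕ} (t : ℝ) (x : Fin n → ℝ) : ℝ := ∑ j, (x j + t)⁻¹

lemma St_meas {n : ℕ} (t : ℝ) : Measurable (St t : (Fin n → ℝ) → ℝ) := by
  unfold St
  fun_prop

lemma St_perm {n : ℕ} (t : ℝ) (σ : Equiv.Perm (Fin n)) (x : Fin n → ℝ) :
    St t (x ∘ σ) = St t x :=
  Equiv.sum_comp σ fun j => (x j + t)⁻¹

lemma St_nonneg {n : ℕ} {t : ℝ} (ht : 0 < t) {x : Fin n → ℝ} (hx : ∀ i, 0 < x i) :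
    0 ≤ St t x := by
  refine Finset.sum_nonneg fun j _ => ?_
  have := hx j
  positivity

lemma St_le {n : ℕ} {t : ℝ} (ht : 0 < t) {x : Fin n → ℝ} (hx : ∀ i, 0 < x i) :
    St t x ≤ n / t := by
  have h : ∑ _j : Fin n, t⁻¹ = n / t := by
    simp [div_eq_mul_inv]
  rw [← h]
  refine Finset.sum_le_sum fun j _ => ?_
  exact inv_anti₀ ht (by linarith [hx j])

lemma St_anti {n : ℕ} {t : ℝ} (ht : 0 < t) {x y : Fin n → ℝ} (hx : ∀ i, 0 < x i)
    (hxy : ∀ i, x i ≤ y i) : St t y ≤ St t x := by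
  refine Finset.sum_le_sum fun j _ => ?_
  exact inv_anti₀ (by linarith [hx j]) (by linarith [hxy j])

lemma St_diff {n : ℕ} {t : ℝ} (ht : 0 < t) {x y : Fin n → ℝ} (hx : ∀ i, 0 < x i)
    (hxy : ∀ i, x i ≤ y i) : t ^ 2 * (St t x - St t y) ≤ ∑ j, (y j - x j) := by
  unfold St
  rw [← Finset.sum_sub_distrib, Finset.mul_sum]
  refine Finset.sum_le_sum fun j _ => ?_
  have h1 := hx j
  have h2 := hxy j
  have a1 : 0 < x j + t := by linarith
  have a2 : 0 < y j + t := by linarith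
  have e : (x j + t)⁻¹ - (y j + t)⁻¹ = (y j - x j) / ((x j + t) * (y j + t)) := by
    field_simp
    ring
  rw [e, ← mul_div_assoc, div_le_iff₀ (mul_pos a1 a2)]
  have h3 : t ^ 2 ≤ (x j + t) * (y j + t) := by nlinarith
  nlinarith [mul_le_mul_of_nonneg_right h3 (sub_nonneg.2 h2)]

lemma prod_diff {n : ℕ} {t : ℝ} (ht : 0 < t) {x y : Fin n → ℝ} (hx : ∀ i, 0 < x i)
    (hxy : ∀ i, x i ≤ y i) (s : Finset (Fin n)) :
    t ^ s.card * ∑ j ∈ s, (y j - x j) ≤ t * (∏ j ∈ s, (y j + t) - ∏ j ∈ s, (x j + t)) := by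
  induction s using Finset.induction_on with
  | empty => simp
  | insert a s ha ih =>
    rw [Finset.card_insert_of_notMem ha, Finset.sum_insert ha, Finset.prod_insert ha,
      Finset.prod_insert ha]
    have hy : ∀ i, 0 < y i := fun i => (hx i).trans_le (hxy i)
    have h1 : t ^ s.card ≤ ∏ j ∈ s, (y j + t) := by
      rw [← Finset.prod_const]
      exact Finset.prod_le_prod (fun _ _ => ht.le) fun j _ => by linarith [hy j]
    have h2 : 0 ≤ ∑ j ∈ s, (y j - x j) := Finset.sum_nonneg fun j _ => sub_nonneg.2 (hxy j)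
    have h3 : 0 ≤ y a - x a := sub_nonneg.2 (hxy a)
    have h4 : 0 < x a + t := by linarith [hx a]
    have h5 := mul_le_mul_of_nonneg_left ih h4.le
    have h6 : t * (t ^ s.card * ∑ j ∈ s, (y j - x j))
        ≤ (x a + t) * (t ^ s.card * ∑ j ∈ s, (y j - x j)) :=
      mul_le_mul_of_nonneg_right (by linarith [hx a]) (by positivity)
    have h7 : t * (y a - x a) * t ^ s.card ≤ t * (y a - x a) * ∏ j ∈ s, (y j + t) :=
      mul_le_mul_of_nonneg_left h1 (by positivity)
    calc t ^ (s.card + 1) * ((y a - x a) + ∑ j ∈ s, (y j - x j))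
        = t * (y a - x a) * t ^ s.card + t * (t ^ s.card * ∑ j ∈ s, (y j - x j)) := by ring
      _ ≤ t * (y a - x a) * ∏ j ∈ s, (y j + t)
          + (x a + t) * (t * (∏ j ∈ s, (y j + t) - ∏ j ∈ s, (x j + t))) := by linarith
      _ = _ := by ring

lemma wG_eq {n : ℕ} {t : ℝ} (ht : 0 ≤ t) {x : Fin n → ℝ} (hx : ∀ i, 0 < x i) :
    Q (wG t) x = Q (wF t) x * Dt t x := by
  rw [Dt, Q_mul (wF t) (fun u => u + t)]
  refine Q_congr (fun u hu => ?_) hx
  have a1 : 0 < Real.sqrt (u + t) := Real.sqrt_pos.2 (by linarith)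
  have a3 : Real.sqrt (u + t) * Real.sqrt (u + t) = u + t :=
    Real.mul_self_sqrt (by linarith)
  unfold wF wG
  rw [mul_assoc]
  congr 1
  rw [← div_eq_inv_mul, eq_div_iff a1.ne']
  exact a3

lemma St_cont {n : ℕ} {t : ℝ} (ht : 0 < t) :
    ContinuousOn (St t : (Fin n → ℝ) → ℝ) (ChU n) := by
  unfold St
  refine continuousOn_finsetSum _ fun j _ => ContinuousOn.inv₀ (by fun_prop) fun x hx => ?_
  have := hx.1 j
  exact (by linarith : (0 : ℝ) < x j + t).ne'

lemma int_F {n : ℕ} {t : ℝ} (ht : 0 ≤ t) : IntegrableOn (Q (wF t)) (Orth n) := by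
  have := int_gen (wF_meas t) (wF_pos ht) (wF_le ht) (g := fun _ : Fin n → ℝ => (1 : ℝ))
    measurable_const 1 0 (fun _ _ => by simp)
  simpa using this

lemma abs_Dt_le {n : ℕ} {t : ℝ} (ht : 0 ≤ t) {x : Fin n → ℝ} (hx : ∀ i, 0 < x i) :
    |Dt t x| ≤ (1 + t) ^ n * Mx x ^ 1 := by
  rw [abs_of_pos (Dt_pos ht hx)]
  exact Dt_le ht hx

lemma int_FD {n : ℕ} {t : ℝ} (ht : 0 ≤ t) :
    IntegrableOn (fun x => Q (wF t) x * Dt t x) (Orth n) :=
  int_gen (wF_meas t) (wF_pos ht) (wF_le ht) (Dt_meas t) _ 1 fun x hx => abs_Dt_le ht hx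

lemma int_G {n : ℕ} {t : ℝ} (ht : 0 ≤ t) : IntegrableOn (Q (wG t)) (Orth n) := by
  refine (int_FD (n := n) ht).congr_fun (fun x hx => ?_) (measurableSet_Orth n)
  exact (wG_eq ht (mem_Orth.1 hx)).symm

lemma abs_St_le {n : ℕ} {t : ℝ} (ht : 0 < t) {x : Fin n → ℝ} (hx : ∀ i, 0 < x i) :
    |St t x| ≤ n / t := by
  rw [abs_of_nonneg (St_nonneg ht hx)]
  exact St_le ht hx

lemma int_FS {n : ℕ} {t : ℝ} (ht : 0 < t) :
    IntegrableOn (fun x => Q (wF t) x * St t x) (Orth n) :=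
  int_gen (wF_meas t) (wF_pos ht.le) (wF_le ht.le) (St_meas t) (n / t) 0 fun x hx => by
    simpa using abs_St_le ht hx

lemma int_FSD {n : ℕ} {t : ℝ} (ht : 0 < t) :
    IntegrableOn (fun x => Q (wF t) x * (St t x * Dt t x)) (Orth n) :=
  int_gen (wF_meas t) (wF_pos ht.le) (wF_le ht.le) ((St_meas t).mul (Dt_meas t))
    (n / t * (1 + t) ^ n) 1 fun x hx => by
    show |St t x * Dt t x| ≤ _
    rw [abs_mul, mul_assoc]
    exact mul_le_mul (abs_St_le ht hx) (abs_Dt_le ht.le hx) (abs_nonneg _)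
      (by positivity)

lemma int_GS {n : ℕ} {t : ℝ} (ht : 0 < t) :
    IntegrableOn (fun x => Q (wG t) x * St t x) (Orth n) := by
  refine (int_FSD (n := n) ht).congr_fun (fun x hx => ?_) (measurableSet_Orth n)
  show Q (wF t) x * (St t x * Dt t x) = Q (wG t) x * St t x
  rw [wG_eq ht.le (mem_Orth.1 hx)]
  ring

theorem caseTwo {n : ℕ} (hn : 1 ≤ n) {t : ℝ} (ht : 0 < t) :
    (∫ x in Orth n, Q (wG t) x * St t x) * (∫ x in Orth n, Q (wF t) x)
      < (∫ x in Orth n, Q (wG t) x) * ∫ x in Orth n, Q (wF t) x * St t x := by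
  have hwm := wF_meas t
  have hw := wF_pos ht.le
  have hwb := wF_le ht.le
  set K : ℝ := n / t with hK
  have hK0 : 0 ≤ K := by positivity
  set g : (Fin n → ℝ) → ℝ := fun x => K - St t x with hg
  set h : (Fin n → ℝ) → ℝ := Dt t with hh
  have hgm : Measurable g := (St_meas t).const_sub K
  have hhm : Measurable h := Dt_meas t
  have bg : ∀ x : Fin n → ℝ, (∀ i, 0 < x i) → |g x| ≤ K * Mx x ^ 0 := by
    intro x hx
    have h1 := St_le ht hx
    have h2 := St_nonneg ht hx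
    rw [pow_zero, mul_one, abs_le]
    constructor <;> simp only [hg] <;> linarith
  have bgh : ∀ x : Fin n → ℝ, (∀ i, 0 < x i) →
      |g x * h x| ≤ (K * (1 + t) ^ n) * Mx x ^ 1 := by
    intro x hx
    rw [abs_mul, mul_assoc]
    refine mul_le_mul ?_ (abs_Dt_le ht.le hx) (abs_nonneg _) hK0
    simpa using bg x hx
  have bgg : ∀ x : Fin n → ℝ, (∀ i, 0 < x i) → |g x * g x| ≤ (K * K) * Mx x ^ 0 := by
    intro x hx
    rw [abs_mul]
    have := bg x hx
    simp only [pow_zero, mul_one] at this ⊢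
    exact mul_le_mul this this (abs_nonneg _) hK0
  have i1' := int_F (n := n) ht.le
  have ig' : IntegrableOn (fun x => Q (wF t) x * g x) (Orth n) := int_gen hwm hw hwb hgm K 0 bg
  have ih' : IntegrableOn (fun x => Q (wF t) x * h x) (Orth n) := int_FD ht.le
  have igh' : IntegrableOn (fun x => Q (wF t) x * (g x * h x)) (Orth n) :=
    int_gen hwm hw hwb (hgm.mul hhm) _ 1 bgh
  have igg' : IntegrableOn (fun x => Q (wF t) x * (g x * g x)) (Orth n) :=
    int_gen hwm hw hwb (hgm.mul hgm) _ 0 bgg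
  have hsub : Ch n ⊆ Orth n := fun x hx => mem_Orth.2 hx.1
  have hgperm : ∀ (σ : Equiv.Perm (Fin n)) (x : Fin n → ℝ), g (x ∘ σ) = g x := fun σ x => by
    simp only [hg, St_perm]
  have hfac : (0 : ℝ) < n.factorial := by exact_mod_cast n.factorial_pos
  have hne : (Finset.univ : Finset (Fin n)).Nonempty := ⟨⟨0, hn⟩, Finset.mem_univ _⟩
  have hstr : g (pt n 1) ≠ g (pt n 2) := by
    have : St t (pt n 2) < St t (pt n 1) := by
      refine Finset.sum_lt_sum_of_nonempty hne fun j _ => ?_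
      have p1 := (pt_mem n (c := 1) one_pos).1 j
      apply inv_strictAnti₀ (by linarith)
      unfold pt; linarith
    simp only [hg]
    intro hcon
    linarith
  have key : ∀ x ∈ Ch n, ∀ y ∈ Ch n, x ≤ y → t ^ (n + 1) * (St t x - St t y) ≤ Dt t y - Dt t x := by
    intro x hx y hy hxy
    have k1 := St_diff ht hx.1 hxy
    have k2 := prod_diff ht hx.1 hxy Finset.univ
    rw [Finset.card_univ, Fintype.card_fin] at k2
    have k3 : t ^ n * (t ^ 2 * (St t x - St t y)) ≤ t ^ n * ∑ j, (y j - x j) :=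
      mul_le_mul_of_nonneg_left k1 (by positivity)
    have k4 : t * (t ^ (n + 1) * (St t x - St t y)) ≤ t * (Dt t y - Dt t x) := by
      calc t * (t ^ (n + 1) * (St t x - St t y)) = t ^ n * (t ^ 2 * (St t x - St t y)) := by ring
        _ ≤ _ := k3.trans k2
    exact le_of_mul_le_mul_left k4 ht
  have main := fkg_strict (wF_cont ht.le) hwm hw (g := g) (h := h) hgm hhm
    (t ^ (n + 1) * K) (t ^ (n + 1)) (by positivity)
    ?_ ?_ ?_ ?_ (continuousOn_const.sub (St_cont ht))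
    (pt_mem n (c := 1) one_pos) (pt_mem n (c := 2) two_pos) hstr
    (i1'.mono_set hsub) (ig'.mono_set hsub) (ih'.mono_set hsub) (igh'.mono_set hsub)
    (igg'.mono_set hsub)
  · have hf2 : (0 : ℝ) < n.factorial * n.factorial := mul_pos hfac hfac
    have main2 := mul_lt_mul_of_pos_left main hf2
    have s1 := symm_integral _ (fun σ x => Q_perm (wF t) σ x) i1'
    have s2 := symm_integral _ (fun σ x => by rw [Q_perm, hgperm]) ig'
    have s3 := symm_integral _ (fun σ x => by rw [Q_perm, hh, Dt_perm]) ih'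
    have s4 := symm_integral _ (fun σ x => by rw [Q_perm, hgperm, hh, Dt_perm]) igh'
    have main3 : (∫ x in Orth n, Q (wF t) x * g x) * (∫ x in Orth n, Q (wF t) x * h x)
        < (∫ x in Orth n, Q (wF t) x) * ∫ x in Orth n, Q (wF t) x * (g x * h x) := by
      rw [s1, s2, s3, s4]
      calc _ = (n.factorial * n.factorial : ℝ) *
          ((∫ x in Ch n, Q (wF t) x * g x) * (∫ x in Ch n, Q (wF t) x * h x)) := by ring
        _ < _ := main2
        _ = _ := by ring
    have r1 : ∫ x in Orth n, Q (wF t) x * g x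
        = K * (∫ x in Orth n, Q (wF t) x) - ∫ x in Orth n, Q (wF t) x * St t x := by
      rw [← integral_const_mul, ← integral_sub (i1'.const_mul K) (int_FS ht)]
      refine integral_congr_ae (ae_of_all _ fun x => ?_)
      simp only [hg]
      ring
    have r2 : ∫ x in Orth n, Q (wF t) x * (g x * h x)
        = K * (∫ x in Orth n, Q (wF t) x * h x) - ∫ x in Orth n, Q (wG t) x * St t x := by
      rw [← integral_const_mul, ← integral_sub (ih'.const_mul K) (int_GS ht)]
      refine setIntegral_congr_fun (measurableSet_Orth n) fun x hx => ?_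
      simp only [hg, hh]
      rw [wG_eq ht.le (mem_Orth.1 hx)]
      ring
    have r3 : ∫ x in Orth n, Q (wG t) x = ∫ x in Orth n, Q (wF t) x * h x :=
      setIntegral_congr_fun (measurableSet_Orth n) fun x hx => wG_eq ht.le (mem_Orth.1 hx)
    rw [r1, r2] at main3
    rw [r3]
    nlinarith [main3]
  · intro x hx
    have := St_le ht hx.1
    have h0 : 0 ≤ t ^ (n + 1) * K := by positivity
    simp only [hg]
    linarith
  · intro x hx
    have h1 := St_nonneg ht hx.1
    have h2 := Dt_pos ht.le hx.1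
    have h3 : 0 ≤ t ^ (n + 1) * St t x := by positivity
    simp only [hg, hh]
    nlinarith
  · intro x hx y hy hxy
    have := St_anti ht hx.1 hxy
    simp only [hg]
    linarith
  · intro x hx y hy hxy
    have := key x hx y hy hxy
    show h x - t ^ (n + 1) * g x ≤ h y - t ^ (n + 1) * g y
    simp only [hg, hh]
    nlinarith

end Pool.Agent.Helper3.FKG
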