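import Pool.Agent.Helper3.FKG.Integrable

set_option autoImplicit false

open MeasureTheory ENNReal Set

namespace Pool.Agent.Helper3.FKG

lemma Vd_eq_det {n : ℕ} (x : Fin n → ℝ) : Vd x = (Matrix.vandermonde x).det ^ 2 := by
  rw [Matrix.det_vandermonde, Vd, ← Finset.prod_pow]
  refine Finset.prod_congr rfl fun k _ => ?_
  rw [← Finset.prod_pow]

lemma Vd_perm {n : ℕ} (σ : Equiv.Perm (Fin n)) (x : Fin n → ℝ) : Vd (x ∘ σ) = Vd x := by
  rw [Vd_eq_det, Vd_eq_det]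
  have h : Matrix.vandermonde (x ∘ σ) = (Matrix.vandermonde x).submatrix σ id := by
    ext i j
    simp [Matrix.vandermonde]
  rw [h, Matrix.det_permute, mul_pow]
  have h2 : ((Equiv.Perm.sign σ : ℤ) : ℝ) ^ 2 = 1 := by
    rcases Int.units_eq_one_or (Equiv.Perm.sign σ) with h | h <;> rw [h] <;> norm_num
  rw [h2, one_mul]

lemma prod_perm {n : ℕ} (w : ℝ → ℝ) (σ : Equiv.Perm (Fin n)) (x : Fin n → ℝ) :
    ∏ j, w ((x ∘ σ) j) = ∏ j, w (x j) :=
  Equiv.prod_comp σ fun j => w (x j)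

lemma Q_perm {n : ℕ} (w : ℝ → ℝ) (σ : Equiv.Perm (Fin n)) (x : Fin n → ℝ) :
    Q w (x ∘ σ) = Q w x := by
  unfold Q
  rw [Vd_perm, prod_perm]

lemma Q_mul {n : ℕ} (w γ : ℝ → ℝ) (x : Fin n → ℝ) :
    Q w x * ∏ j, γ (x j) = Q (fun u => w u * γ u) x := by
  unfold Q
  rw [Finset.prod_mul_distrib]
  ring

lemma Q_congr {n : ℕ} {w1 w2 : ℝ → ℝ} (h : ∀ u, 0 < u → w1 u = w2 u) {x : Fin n → ℝ}
    (hx : ∀ i, 0 < x i) : Q w1 x = Q w2 x := by
  unfold Q
  congr 1
  exact Finset.prod_congr rfl fun j _ => h _ (hx j)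

/-- weight of `F` -/
noncomputable def wF (t u : ℝ) : ℝ := Real.exp (-u) * (Real.sqrt (u + t))⁻¹

/-- weight of `G` -/
noncomputable def wG (t u : ℝ) : ℝ := Real.exp (-u) * Real.sqrt (u + t)

/-- `∏ (x j + t)` -/
def Dt {n : ℕ} (t : ℝ) (x : Fin n → ℝ) : ℝ := ∏ j, (x j + t)

lemma wF_pos {t : ℝ} (ht : 0 ≤ t) (u : ℝ) (hu : 0 < u) : 0 < wF t u := by
  have : 0 < Real.sqrt (u + t) := Real.sqrt_pos.2 (by linarith)
  unfold wF
  positivity

lemma wF_meas (t : ℝ) : Measurable (wF t) := by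
  unfold wF
  fun_prop

lemma wF_cont {t : ℝ} (ht : 0 ≤ t) : ContinuousOn (wF t) (Ioi 0) := by
  unfold wF
  refine ContinuousOn.mul (by fun_prop) (ContinuousOn.inv₀ (by fun_prop) fun u hu => ?_)
  have hu0 : (0 : ℝ) < u := hu
  exact (Real.sqrt_pos.2 (by linarith)).ne'

lemma wF_le {t : ℝ} (ht : 0 ≤ t) (u : ℝ) (hu : 0 < u) :
    wF t u ≤ Real.exp (-u) * (Real.sqrt u)⁻¹ := by
  unfold wF
  refine mul_le_mul_of_nonneg_left ?_ (Real.exp_pos _).le
  exact inv_anti₀ (Real.sqrt_pos.2 hu) (Real.sqrt_le_sqrt (by linarith))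

lemma Dt_pos {n : ℕ} {t : ℝ} (ht : 0 ≤ t) {x : Fin n → ℝ} (hx : ∀ i, 0 < x i) : 0 < Dt t x :=
  Finset.prod_pos fun j _ => by linarith [hx j]

lemma Dt_le {n : ℕ} {t : ℝ} (ht : 0 ≤ t) {x : Fin n → ℝ} (hx : ∀ i, 0 < x i) :
    Dt t x ≤ (1 + t) ^ n * Mx x ^ 1 := by
  have h : ∏ j : Fin n, ((1 + t) * (1 + x j)) = (1 + t) ^ n * Mx x ^ 1 := by
    rw [Finset.prod_mul_distrib, pow_one]
    simp [Mx]
  rw [← h]
  refine Finset.prod_le_prod (fun j _ => by linarith [hx j]) fun j _ => ?_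
  nlinarith [hx j, mul_nonneg ht (hx j).le]

lemma Dt_perm {n : ℕ} (t : ℝ) (σ : Equiv.Perm (Fin n)) (x : Fin n → ℝ) :
    Dt t (x ∘ σ) = Dt t x :=
  prod_perm (fun u => u + t) σ x

lemma Dt_meas {n : ℕ} (t : ℝ) : Measurable (Dt t : (Fin n → ℝ) → ℝ) := by
  unfold Dt
  fun_prop

lemma Dt_mono {n : ℕ} {t : ℝ} (ht : 0 ≤ t) : MonotoneOn (Dt t : (Fin n → ℝ) → ℝ) (Ch n) := by
  intro x hx y hy hxy
  exact Finset.prod_le_prod (fun j _ => by linarith [hx.1 j]) fun j _ => by linarith [hxy j]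

/-- A point of the chamber. -/
def pt (n : ℕ) (c : ℝ) : Fin n → ℝ := fun i => c + i.val

lemma pt_mem (n : ℕ) {c : ℝ} (hc : 0 < c) : pt n c ∈ ChU n := by
  refine ⟨fun i => ?_, fun i j hij => ?_⟩
  · unfold pt; positivity
  · unfold pt
    have : (i.val : ℝ) < j.val := by exact_mod_cast hij
    linarith

/-! ### First case -/

/-- `∏ √((x+t1)/(x+t2))` -/
noncomputable def g1 {n : ℕ} (t1 t2 : ℝ) (x : Fin n → ℝ) : ℝ :=
  ∏ j, Real.sqrt ((x j + t1) / (x j + t2))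

lemma g1_nonneg {n : ℕ} (t1 t2 : ℝ) (x : Fin n → ℝ) : 0 ≤ g1 t1 t2 x :=
  Finset.prod_nonneg fun _ _ => Real.sqrt_nonneg _

lemma frac_lt {t1 t2 : ℝ} (h1 : 0 ≤ t1) (h2 : t1 < t2) {u v : ℝ} (hu : 0 < u) (huv : u < v) :
    (u + t1) / (u + t2) < (v + t1) / (v + t2) := by
  rw [div_lt_div_iff₀ (by linarith) (by linarith)]
  nlinarith [mul_pos (sub_pos.2 h2) (sub_pos.2 huv)]

lemma frac_le {t1 t2 : ℝ} (h1 : 0 ≤ t1) (h2 : t1 < t2) {u v : ℝ} (hu : 0 < u) (huv : u ≤ v) :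
    (u + t1) / (u + t2) ≤ (v + t1) / (v + t2) := by
  rcases eq_or_lt_of_le huv with h | h
  · rw [h]
  · exact (frac_lt h1 h2 hu h).le

lemma g1_mono {n : ℕ} {t1 t2 : ℝ} (h1 : 0 ≤ t1) (h2 : t1 < t2) :
    MonotoneOn (g1 t1 t2 : (Fin n → ℝ) → ℝ) (Ch n) := by
  intro x hx y hy hxy
  refine Finset.prod_le_prod (fun _ _ => Real.sqrt_nonneg _) fun j _ => ?_
  exact Real.sqrt_le_sqrt (frac_le h1 h2 (hx.1 j) (hxy j))

lemma g1_le_one {n : ℕ} {t1 t2 : ℝ} (h1 : 0 ≤ t1) (h2 : t1 < t2) {x : Fin n → ℝ}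
    (hx : ∀ i, 0 < x i) : g1 t1 t2 x ≤ 1 := by
  refine Finset.prod_le_one (fun _ _ => Real.sqrt_nonneg _) fun j _ => ?_
  refine Real.sqrt_le_iff.2 ⟨zero_le_one, ?_⟩
  rw [one_pow, div_le_one (by linarith [hx j])]
  linarith

lemma g1_meas {n : ℕ} (t1 t2 : ℝ) : Measurable (g1 t1 t2 : (Fin n → ℝ) → ℝ) := by
  unfold g1
  fun_prop

lemma g1_cont {n : ℕ} {t1 t2 : ℝ} (h1 : 0 ≤ t1) (h2 : t1 < t2) :
    ContinuousOn (g1 t1 t2 : (Fin n → ℝ) → ℝ) (ChU n) := by
  unfold g1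
  refine continuousOn_finsetProd _ fun j _ => ContinuousOn.sqrt (ContinuousOn.div (by fun_prop)
    (by fun_prop) fun x hx => ?_)
  have := hx.1 j
  exact (by linarith : (0 : ℝ) < x j + t2).ne'

lemma g1_lt {n : ℕ} (hn : 1 ≤ n) {t1 t2 : ℝ} (h1 : 0 ≤ t1) (h2 : t1 < t2) :
    g1 t1 t2 (pt n 1) < g1 t1 t2 (pt n 2) := by
  have hne : (Finset.univ : Finset (Fin n)).Nonempty := ⟨⟨0, hn⟩, Finset.mem_univ _⟩
  have p1 := (pt_mem n (c := 1) one_pos).1
  refine Finset.prod_lt_prod_of_nonempty (fun j _ => ?_) (fun j _ => ?_) hne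
  · apply Real.sqrt_pos.2
    have := p1 j
    apply div_pos <;> linarith
  · refine Real.sqrt_lt_sqrt ?_ (frac_lt h1 h2 (p1 j) ?_)
    · have := p1 j
      apply div_nonneg <;> linarith
    · unfold pt; linarith

theorem caseOne {n : ℕ} (hn : 1 ≤ n) {t1 t2 : ℝ} (h1 : 0 ≤ t1) (h2 : t1 < t2) :
    (∫ x in Orth n, Q (wF t2) x) * (∫ x in Orth n, Q (wG t2) x)
      < (∫ x in Orth n, Q (wF t1) x) * ∫ x in Orth n, Q (wG t1) x := by
  have ht2 : 0 < t2 := lt_of_le_of_lt h1 h2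
  have hwm := wF_meas t1
  have hw := wF_pos h1
  have hwb := wF_le h1
  set g : (Fin n → ℝ) → ℝ := g1 t1 t2 with hg
  set h : (Fin n → ℝ) → ℝ := fun x => g1 t1 t2 x * Dt t2 x with hh
  have hgm : Measurable g := g1_meas _ _
  have hhm : Measurable h := (g1_meas _ _).mul (Dt_meas _)
  -- identities
  have eF : ∀ x ∈ Orth n, Q (wF t2) x = Q (wF t1) x * g x := by
    intro x hx
    rw [mem_Orth] at hx
    rw [hg, g1, Q_mul (wF t1) (fun u => Real.sqrt ((u + t1) / (u + t2)))]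
    refine Q_congr (fun u hu => ?_) hx
    have a1 : 0 < Real.sqrt (u + t1) := Real.sqrt_pos.2 (by linarith)
    have a2 : 0 < Real.sqrt (u + t2) := Real.sqrt_pos.2 (by linarith)
    unfold wF
    rw [Real.sqrt_div (by linarith)]
    field_simp
  have eG : ∀ x ∈ Orth n, Q (wG t2) x = Q (wF t1) x * h x := by
    intro x hx
    rw [mem_Orth] at hx
    have : h x = ∏ j, (Real.sqrt ((x j + t1) / (x j + t2)) * (x j + t2)) := by
      rw [hh, Finset.prod_mul_distrib]; rfl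
    rw [this, Q_mul (wF t1) (fun u => Real.sqrt ((u + t1) / (u + t2)) * (u + t2))]
    refine Q_congr (fun u hu => ?_) hx
    have a1 : 0 < Real.sqrt (u + t1) := Real.sqrt_pos.2 (by linarith)
    have a2 : 0 < Real.sqrt (u + t2) := Real.sqrt_pos.2 (by linarith)
    have a3 : Real.sqrt (u + t2) * Real.sqrt (u + t2) = u + t2 :=
      Real.mul_self_sqrt (by linarith)
    unfold wF wG
    rw [Real.sqrt_div (by linarith)]
    field_simp
    nlinarith [a3]
  have eGG : ∀ x ∈ Orth n, Q (wG t1) x = Q (wF t1) x * (g x * h x) := by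
    intro x hx
    rw [mem_Orth] at hx
    have : g x * h x = ∏ j, (x j + t1) := by
      rw [hg, hh]
      simp only [g1, Dt]
      rw [← Finset.prod_mul_distrib, ← Finset.prod_mul_distrib]
      refine Finset.prod_congr rfl fun j _ => ?_
      have b1 := hx j
      have b2 : 0 < x j + t2 := by linarith
      rw [← mul_assoc, Real.mul_self_sqrt (div_nonneg (by linarith) (by linarith))]
      field_simp
    rw [this, Q_mul (wF t1) (fun u => u + t1)]
    refine Q_congr (fun u hu => ?_) hx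
    have a1 : 0 < Real.sqrt (u + t1) := Real.sqrt_pos.2 (by linarith)
    have a3 : Real.sqrt (u + t1) * Real.sqrt (u + t1) = u + t1 :=
      Real.mul_self_sqrt (by linarith)
    unfold wF wG
    rw [mul_assoc]
    congr 1
    rw [← div_eq_inv_mul, eq_div_iff a1.ne']
    exact a3
  -- bounds
  have bg : ∀ x : Fin n → ℝ, (∀ i, 0 < x i) → |g x| ≤ 1 * Mx x ^ 0 := by
    intro x hx
    rw [abs_of_nonneg (g1_nonneg _ _ _)]
    simpa using g1_le_one h1 h2 hx
  have bh : ∀ x : Fin n → ℝ, (∀ i, 0 < x i) → |h x| ≤ (1 + t2) ^ n * Mx x ^ 1 := by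
    intro x hx
    have hD := Dt_pos ht2.le hx
    rw [abs_of_nonneg (mul_nonneg (g1_nonneg _ _ _) hD.le)]
    calc g1 t1 t2 x * Dt t2 x ≤ 1 * Dt t2 x :=
          mul_le_mul_of_nonneg_right (g1_le_one h1 h2 hx) hD.le
      _ = Dt t2 x := one_mul _
      _ ≤ _ := Dt_le ht2.le hx
  have bgh : ∀ x : Fin n → ℝ, (∀ i, 0 < x i) → |g x * h x| ≤ (1 + t2) ^ n * Mx x ^ 1 := by
    intro x hx
    rw [abs_mul]
    calc |g x| * |h x| ≤ 1 * |h x| := by
          refine mul_le_mul_of_nonneg_right ?_ (abs_nonneg _)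
          simpa using bg x hx
      _ = |h x| := one_mul _
      _ ≤ _ := bh x hx
  have bgg : ∀ x : Fin n → ℝ, (∀ i, 0 < x i) → |g x * g x| ≤ 1 * Mx x ^ 0 := by
    intro x hx
    rw [abs_mul]
    have := bg x hx
    simp only [pow_zero, mul_one] at this ⊢
    exact mul_le_one₀ this (abs_nonneg _) this
  have i1' : IntegrableOn (Q (wF t1)) (Orth n) := by
    have := int_gen hwm hw hwb (g := fun _ : Fin n → ℝ => (1 : ℝ)) measurable_const 1 0
      (fun x _ => by simp)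
    simpa using this
  have ig' := int_gen hwm hw hwb hgm 1 0 bg
  have ih' := int_gen hwm hw hwb hhm _ 1 bh
  have igh' : IntegrableOn (fun x => Q (wF t1) x * (g x * h x)) (Orth n) :=
    int_gen hwm hw hwb (hgm.mul hhm) _ 1 bgh
  have igg' : IntegrableOn (fun x => Q (wF t1) x * (g x * g x)) (Orth n) :=
    int_gen hwm hw hwb (hgm.mul hgm) 1 0 bgg
  have hsub : Ch n ⊆ Orth n := fun x hx => mem_Orth.2 hx.1
  have hgperm : ∀ (σ : Equiv.Perm (Fin n)) (x : Fin n → ℝ), g (x ∘ σ) = g x := fun σ x =>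
    prod_perm (fun u => Real.sqrt ((u + t1) / (u + t2))) σ x
  have hhperm : ∀ (σ : Equiv.Perm (Fin n)) (x : Fin n → ℝ), h (x ∘ σ) = h x := fun σ x => by
    have := hgperm σ x
    rw [hh]
    simp only [Dt_perm]
    rw [← hg, this]
  rw [setIntegral_congr_fun (measurableSet_Orth n) eF,
    setIntegral_congr_fun (measurableSet_Orth n) eG,
    setIntegral_congr_fun (measurableSet_Orth n) eGG,
    symm_integral _ (fun σ x => Q_perm _ σ x) i1',
    symm_integral _ (fun σ x => by rw [Q_perm, hgperm]) ig',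
    symm_integral _ (fun σ x => by rw [Q_perm, hhperm]) ih',
    symm_integral _ (fun σ x => by rw [Q_perm, hhperm, hgperm]) igh']
  have hfac : (0 : ℝ) < n.factorial := by exact_mod_cast n.factorial_pos
  have main := fkg_strict (wF_cont h1) hwm hw (g := g) (h := h) hgm hhm 0 (t2 ^ n) (by positivity)
    (fun x hx => by simpa using g1_nonneg t1 t2 x) ?_ (g1_mono h1 h2) ?_ (g1_cont h1 h2)
    (pt_mem n (c := 1) one_pos) (pt_mem n (c := 2) two_pos) (g1_lt hn h1 h2).ne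
    (i1'.mono_set hsub) (ig'.mono_set hsub) (ih'.mono_set hsub) (igh'.mono_set hsub)
    (igg'.mono_set hsub)
  · have hf2 : (0 : ℝ) < n.factorial * n.factorial := mul_pos hfac hfac
    have := mul_lt_mul_of_pos_left main hf2
    calc _ = (n.factorial * n.factorial : ℝ) *
        ((∫ x in Ch n, Q (wF t1) x * g x) * (∫ x in Ch n, Q (wF t1) x * h x)) := by ring
      _ < _ := this
      _ = _ := by ring
  · intro x hx
    have hD : t2 ^ n ≤ Dt t2 x := by
      have : ∏ _j : Fin n, t2 ≤ Dt t2 x :=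
        Finset.prod_le_prod (fun _ _ => ht2.le) fun j _ => by linarith [hx.1 j]
      simpa using this
    have e : h x - t2 ^ n * g x = g1 t1 t2 x * (Dt t2 x - t2 ^ n) := by
      simp only [hh, hg]; ring
    rw [e, neg_zero]
    exact mul_nonneg (g1_nonneg _ _ _) (by linarith)
  · intro x hx y hy hxy
    have hD : t2 ^ n ≤ Dt t2 x := by
      have : ∏ _j : Fin n, t2 ≤ Dt t2 x :=
        Finset.prod_le_prod (fun _ _ => ht2.le) fun j _ => by linarith [hx.1 j]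
      simpa using this
    have e : ∀ z : Fin n → ℝ, h z - t2 ^ n * g z = g1 t1 t2 z * (Dt t2 z - t2 ^ n) := by
      intro z
      simp only [hh, hg]; ring
    show h x - t2 ^ n * g x ≤ h y - t2 ^ n * g y
    rw [e, e]
    have m1 := g1_mono h1 h2 hx hy hxy
    have m2 := Dt_mono ht2.le hx hy hxy
    exact mul_le_mul m1 (by linarith) (by linarith) (g1_nonneg _ _ _)

end Pool.Agent.Helper3.FKG
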