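import Pool.Agent.Helper3.FKG.Four

set_option autoImplicit false

open MeasureTheory ENNReal Set

namespace Pool.Agent.Helper3.FKG

/-- The ordered positive chamber. -/
def Ch (n : ℕ) : Set (Fin n → ℝ) := {x | (∀ i, 0 < x i) ∧ Monotone x}

/-- Its interior. -/
def ChU (n : ℕ) : Set (Fin n → ℝ) := {x | (∀ i, 0 < x i) ∧ StrictMono x}

lemma ChU_subset (n : ℕ) : ChU n ⊆ Ch n := fun _ hx => ⟨hx.1, hx.2.monotone⟩

/-- The squared Vandermonde product. -/
def Vd {n : ℕ} (x : Fin n → ℝ) : ℝ := ∏ k, ∏ j ∈ Finset.Ioi k, (x j - x k) ^ 2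

lemma Vd_nonneg {n : ℕ} (x : Fin n → ℝ) : 0 ≤ Vd x :=
  Finset.prod_nonneg fun _ _ => Finset.prod_nonneg fun _ _ => sq_nonneg _

lemma Vd_pos {n : ℕ} {x : Fin n → ℝ} (hx : StrictMono x) : 0 < Vd x := by
  refine Finset.prod_pos fun k _ => Finset.prod_pos fun j hj => ?_
  have : x k < x j := hx (Finset.mem_Ioi.1 hj)
  have h : 0 < x j - x k := by linarith
  positivity

lemma continuous_Vd {n : ℕ} : Continuous (Vd : (Fin n → ℝ) → ℝ) := by
  unfold Vd
  fun_prop

lemma Ch_sup {n : ℕ} {x y : Fin n → ℝ} (hx : x ∈ Ch n) (hy : y ∈ Ch n) : x ⊔ y ∈ Ch n :=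
  ⟨fun i => lt_sup_of_lt_left (hx.1 i), hx.2.sup hy.2⟩

lemma Ch_inf {n : ℕ} {x y : Fin n → ℝ} (hx : x ∈ Ch n) (hy : y ∈ Ch n) : x ⊓ y ∈ Ch n :=
  ⟨fun i => lt_inf_iff.2 ⟨hx.1 i, hy.1 i⟩, hx.2.inf hy.2⟩

lemma pair_vd (a b c d : ℝ) :
    (a - b) * (c - d) ≤ (a ⊔ c - (b ⊔ d)) * (a ⊓ c - (b ⊓ d)) := by
  rcases le_total a c with h3 | h3 <;> rcases le_total b d with h4 | h4
  · rw [sup_eq_right.2 h3, sup_eq_right.2 h4, inf_eq_left.2 h3, inf_eq_left.2 h4]
    linarith [mul_comm (a - b) (c - d)]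
  · rw [sup_eq_right.2 h3, sup_eq_left.2 h4, inf_eq_left.2 h3, inf_eq_right.2 h4]
    nlinarith [mul_nonneg (sub_nonneg.2 h3) (sub_nonneg.2 h4)]
  · rw [sup_eq_left.2 h3, sup_eq_right.2 h4, inf_eq_right.2 h3, inf_eq_left.2 h4]
    nlinarith [mul_nonneg (sub_nonneg.2 h3) (sub_nonneg.2 h4)]
  · rw [sup_eq_left.2 h3, sup_eq_left.2 h4, inf_eq_right.2 h3, inf_eq_right.2 h4]

lemma Vd_super {n : ℕ} {x y : Fin n → ℝ} (hx : Monotone x) (hy : Monotone y) :
    Vd x * Vd y ≤ Vd (x ⊔ y) * Vd (x ⊓ y) := by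
  unfold Vd
  rw [← Finset.prod_mul_distrib, ← Finset.prod_mul_distrib]
  refine Finset.prod_le_prod (fun k _ => mul_nonneg
    (Finset.prod_nonneg fun _ _ => sq_nonneg _) (Finset.prod_nonneg fun _ _ => sq_nonneg _)) ?_
  intro k _
  rw [← Finset.prod_mul_distrib, ← Finset.prod_mul_distrib]
  refine Finset.prod_le_prod (fun j _ => mul_nonneg (sq_nonneg _) (sq_nonneg _)) ?_
  intro j hj
  have hkj : k ≤ j := (Finset.mem_Ioi.1 hj).le
  rw [← mul_pow, ← mul_pow]
  have h := pair_vd (x j) (x k) (y j) (y k)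
  have h0 : 0 ≤ (x j - x k) * (y j - y k) :=
    mul_nonneg (sub_nonneg.2 (hx hkj)) (sub_nonneg.2 (hy hkj))
  exact pow_le_pow_left₀ h0 h 2

lemma W_eq {n : ℕ} (w : ℝ → ℝ) (x y : Fin n → ℝ) :
    (∏ j, w (x j)) * (∏ j, w (y j)) = (∏ j, w ((x ⊔ y) j)) * (∏ j, w ((x ⊓ y) j)) := by
  rw [← Finset.prod_mul_distrib, ← Finset.prod_mul_distrib]
  refine Finset.prod_congr rfl fun j _ => ?_
  simp only [Pi.sup_apply, Pi.inf_apply]
  rcases le_total (x j) (y j) with h | h
  · rw [sup_eq_right.2 h, inf_eq_left.2 h, mul_comm]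
  · rw [sup_eq_left.2 h, inf_eq_right.2 h]

/-- kernel -/
def Q {n : ℕ} (w : ℝ → ℝ) (x : Fin n → ℝ) : ℝ := Vd x * ∏ j, w (x j)

lemma Q_nonneg {n : ℕ} {w : ℝ → ℝ} (hw : ∀ u, 0 < u → 0 < w u) {x : Fin n → ℝ}
    (hx : ∀ i, 0 < x i) : 0 ≤ Q w x :=
  mul_nonneg (Vd_nonneg x) (Finset.prod_nonneg fun j _ => (hw _ (hx j)).le)

lemma Q_super {n : ℕ} {w : ℝ → ℝ} (hw : ∀ u, 0 < u → 0 < w u) {x y : Fin n → ℝ}
    (hx : x ∈ Ch n) (hy : y ∈ Ch n) :
    Q w x * Q w y ≤ Q w (x ⊔ y) * Q w (x ⊓ y) := by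
  have h1 := Vd_super hx.2 hy.2
  have h2 := W_eq w x y
  calc Q w x * Q w y = (Vd x * Vd y) * ((∏ j, w (x j)) * (∏ j, w (y j))) := by
        unfold Q; ring
    _ ≤ (Vd (x ⊔ y) * Vd (x ⊓ y)) * ((∏ j, w (x j)) * (∏ j, w (y j))) := by
        refine mul_le_mul_of_nonneg_right h1 (mul_nonneg ?_ ?_)
        · exact Finset.prod_nonneg fun j _ => (hw _ (hx.1 j)).le
        · exact Finset.prod_nonneg fun j _ => (hw _ (hy.1 j)).le
    _ = Q w (x ⊔ y) * Q w (x ⊓ y) := by rw [h2]; unfold Q; ring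

lemma measurableSet_Ch (n : ℕ) : MeasurableSet (Ch n) := by
  have : Ch n = (⋂ i, {x : Fin n → ℝ | 0 < x i}) ∩
      ⋂ i, ⋂ j, ⋂ (_ : i ≤ j), {x : Fin n → ℝ | x i ≤ x j} := by
    ext x
    simp only [Ch, mem_ofPred_eq, mem_inter_iff, mem_iInter]
    rfl
  rw [this]
  refine MeasurableSet.inter ?_ ?_
  · exact MeasurableSet.iInter fun i => measurableSet_lt measurable_const (measurable_pi_apply i)
  · exact MeasurableSet.iInter fun i => MeasurableSet.iInter fun j => MeasurableSet.iInter fun _ =>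
      measurableSet_le (measurable_pi_apply i) (measurable_pi_apply j)

lemma isOpen_ChU (n : ℕ) : IsOpen (ChU n) := by
  have : ChU n = (⋂ i, {x : Fin n → ℝ | 0 < x i}) ∩
      ⋂ i, ⋂ j, ⋂ (_ : i < j), {x : Fin n → ℝ | x i < x j} := by
    ext x
    simp only [ChU, mem_ofPred_eq, mem_inter_iff, mem_iInter]
    rfl
  rw [this]
  refine IsOpen.inter ?_ ?_
  · exact isOpen_iInter_of_finite fun i => isOpen_lt continuous_const (continuous_apply i)
  · exact isOpen_iInter_of_finite fun i => isOpen_iInter_of_finite fun j =>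
      isOpen_iInter_of_finite fun _ => isOpen_lt (continuous_apply i) (continuous_apply j)

/-- The FKG inequality on the chamber, for nonnegative increasing functions. -/
theorem fkg_nonneg {n : ℕ} {w : ℝ → ℝ} (hwm : Measurable w) (hw : ∀ u, 0 < u → 0 < w u)
    {g h : (Fin n → ℝ) → ℝ} (hgm : Measurable g) (hhm : Measurable h)
    (hg0 : ∀ x ∈ Ch n, 0 ≤ g x) (hh0 : ∀ x ∈ Ch n, 0 ≤ h x)
    (hg : MonotoneOn g (Ch n)) (hh : MonotoneOn h (Ch n))
    (i1 : IntegrableOn (Q w) (Ch n)) (ig : IntegrableOn (fun x => Q w x * g x) (Ch n))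
    (ih : IntegrableOn (fun x => Q w x * h x) (Ch n))
    (igh : IntegrableOn (fun x => Q w x * (g x * h x)) (Ch n)) :
    (∫ x in Ch n, Q w x * g x) * (∫ x in Ch n, Q w x * h x)
      ≤ (∫ x in Ch n, Q w x) * ∫ x in Ch n, Q w x * (g x * h x) := by
  have hQm : Measurable (Q w : (Fin n → ℝ) → ℝ) := by
    unfold Q
    refine continuous_Vd.measurable.mul ?_
    exact Finset.measurable_prod _ fun j _ => hwm.comp (measurable_pi_apply j)
  have hC := measurableSet_Ch n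
  have hQ0 : ∀ x ∈ Ch n, 0 ≤ Q w x := fun x hx => Q_nonneg hw hx.1
  have conv : ∀ f : (Fin n → ℝ) → ℝ, (∀ x ∈ Ch n, 0 ≤ f x) → IntegrableOn f (Ch n) →
      ENNReal.ofReal (∫ x in Ch n, f x)
        = ∫⁻ x, (Ch n).indicator (fun x => ENNReal.ofReal (f x)) x := by
    intro f hf hi
    rw [ofReal_integral_eq_lintegral_ofReal hi ((ae_restrict_iff' hC).2 (ae_of_all _ hf)),
      lintegral_indicator hC]
  have p1 : ∀ x ∈ Ch n, 0 ≤ Q w x * g x := fun x hx => mul_nonneg (hQ0 x hx) (hg0 x hx)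
  have p2 : ∀ x ∈ Ch n, 0 ≤ Q w x * h x := fun x hx => mul_nonneg (hQ0 x hx) (hh0 x hx)
  have p3 : ∀ x ∈ Ch n, 0 ≤ Q w x * (g x * h x) := fun x hx =>
    mul_nonneg (hQ0 x hx) (mul_nonneg (hg0 x hx) (hh0 x hx))
  have four := four_functions n
    ((Ch n).indicator (fun x => ENNReal.ofReal (Q w x * g x)))
    ((Ch n).indicator (fun x => ENNReal.ofReal (Q w x * h x)))
    ((Ch n).indicator (fun x => ENNReal.ofReal (Q w x * (g x * h x))))
    ((Ch n).indicator (fun x => ENNReal.ofReal (Q w x)))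
    ((hQm.mul hgm).ennreal_ofReal.indicator hC)
    ((hQm.mul hhm).ennreal_ofReal.indicator hC)
    ((hQm.mul (hgm.mul hhm)).ennreal_ofReal.indicator hC)
    (hQm.ennreal_ofReal.indicator hC) ?_
  · rw [← conv _ p1 ig, ← conv _ p2 ih, ← conv _ p3 igh, ← conv _ hQ0 i1,
      ← ENNReal.ofReal_mul (setIntegral_nonneg hC p1),
      ← ENNReal.ofReal_mul (setIntegral_nonneg hC p3)] at four
    rw [ENNReal.ofReal_le_ofReal_iff (mul_nonneg (setIntegral_nonneg hC p3)
      (setIntegral_nonneg hC hQ0))] at four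
    linarith [mul_comm (∫ x in Ch n, Q w x) (∫ x in Ch n, Q w x * (g x * h x))]
  · intro x y
    by_cases hx : x ∈ Ch n
    · by_cases hy : y ∈ Ch n
      · have hs := Ch_sup hx hy
        have hi := Ch_inf hx hy
        rw [indicator_of_mem hx, indicator_of_mem hy, indicator_of_mem hs, indicator_of_mem hi,
          ← ENNReal.ofReal_mul (p1 x hx), ← ENNReal.ofReal_mul (p3 _ hs)]
        apply ENNReal.ofReal_le_ofReal
        have a1 := Q_super hw hx hy
        have a2 : g x ≤ g (x ⊔ y) := hg hx hs le_sup_left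
        have a3 : h y ≤ h (x ⊔ y) := hh hy hs le_sup_right
        have a4 : g x * h y ≤ g (x ⊔ y) * h (x ⊔ y) :=
          mul_le_mul a2 a3 (hh0 y hy) (hg0 _ hs)
        calc Q w x * g x * (Q w y * h y) = (Q w x * Q w y) * (g x * h y) := by ring
          _ ≤ (Q w (x ⊔ y) * Q w (x ⊓ y)) * (g (x ⊔ y) * h (x ⊔ y)) :=
            mul_le_mul a1 a4 (mul_nonneg (hg0 x hx) (hh0 y hy))
              (mul_nonneg (hQ0 _ hs) (hQ0 _ hi))
          _ = _ := by ring
      · simp [indicator_of_notMem hy]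
    · simp [indicator_of_notMem hx]

/-- The FKG inequality on the chamber, for increasing functions bounded below. -/
theorem fkg_bdd {n : ℕ} {w : ℝ → ℝ} (hwm : Measurable w) (hw : ∀ u, 0 < u → 0 < w u)
    {g h : (Fin n → ℝ) → ℝ} (hgm : Measurable g) (hhm : Measurable h) (K : ℝ)
    (hg0 : ∀ x ∈ Ch n, -K ≤ g x) (hh0 : ∀ x ∈ Ch n, -K ≤ h x)
    (hg : MonotoneOn g (Ch n)) (hh : MonotoneOn h (Ch n))
    (i1 : IntegrableOn (Q w) (Ch n)) (ig : IntegrableOn (fun x => Q w x * g x) (Ch n))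
    (ih : IntegrableOn (fun x => Q w x * h x) (Ch n))
    (igh : IntegrableOn (fun x => Q w x * (g x * h x)) (Ch n)) :
    (∫ x in Ch n, Q w x * g x) * (∫ x in Ch n, Q w x * h x)
      ≤ (∫ x in Ch n, Q w x) * ∫ x in Ch n, Q w x * (g x * h x) := by
  have e1 : (fun x => Q w x * (g x + K)) = fun x : Fin n → ℝ => Q w x * g x + K * Q w x := by
    funext x; ring
  have e2 : (fun x => Q w x * (h x + K)) = fun x : Fin n → ℝ => Q w x * h x + K * Q w x := by
    funext x; ring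
  have e3 : (fun x => Q w x * ((g x + K) * (h x + K))) = fun x : Fin n → ℝ =>
      (Q w x * (g x * h x) + K * (Q w x * g x)) + (K * (Q w x * h x) + K ^ 2 * Q w x) := by
    funext x; ring
  have j1 : IntegrableOn (fun x => Q w x * (g x + K)) (Ch n) := by
    rw [e1]; exact ig.add (i1.const_mul K)
  have j2 : IntegrableOn (fun x => Q w x * (h x + K)) (Ch n) := by
    rw [e2]; exact ih.add (i1.const_mul K)
  have j3 : IntegrableOn (fun x => Q w x * ((g x + K) * (h x + K))) (Ch n) := by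
    rw [e3]; exact (igh.add (ig.const_mul K)).add ((ih.const_mul K).add (i1.const_mul (K ^ 2)))
  have main := fkg_nonneg (g := fun x => g x + K) (h := fun x => h x + K) hwm hw
    (hgm.add_const K) (hhm.add_const K) (fun x hx => by linarith [hg0 x hx])
    (fun x hx => by linarith [hh0 x hx]) (fun x hx y hy hxy => by
      have := hg hx hy hxy
      show g x + K ≤ g y + K
      linarith) (fun x hx y hy hxy => by
      have := hh hx hy hxy
      show h x + K ≤ h y + K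
      linarith) i1 j1 j2 j3
  have s1 : ∫ x in Ch n, Q w x * (g x + K)
      = (∫ x in Ch n, Q w x * g x) + K * ∫ x in Ch n, Q w x := by
    rw [e1, integral_add ig (i1.const_mul K), integral_const_mul]
  have s2 : ∫ x in Ch n, Q w x * (h x + K)
      = (∫ x in Ch n, Q w x * h x) + K * ∫ x in Ch n, Q w x := by
    rw [e2, integral_add ih (i1.const_mul K), integral_const_mul]
  have s3 : ∫ x in Ch n, Q w x * ((g x + K) * (h x + K))
      = ((∫ x in Ch n, Q w x * (g x * h x)) + K * ∫ x in Ch n, Q w x * g x)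
        + (K * (∫ x in Ch n, Q w x * h x) + K ^ 2 * ∫ x in Ch n, Q w x) := by
    have k1 : IntegrableOn (fun x => Q w x * (g x * h x) + K * (Q w x * g x)) (Ch n) :=
      igh.add (ig.const_mul K)
    have k2 : IntegrableOn (fun x => K * (Q w x * h x) + K ^ 2 * Q w x) (Ch n) :=
      (ih.const_mul K).add (i1.const_mul (K ^ 2))
    rw [e3, integral_add k1 k2,
      integral_add igh (ig.const_mul K), integral_add (ih.const_mul K) (i1.const_mul (K ^ 2)),
      integral_const_mul, integral_const_mul, integral_const_mul]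
  rw [s1, s2, s3] at main
  nlinarith [main]

end Pool.Agent.Helper3.FKG
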