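import Pool.Agent.Helper3.FKG.CaseTwo

set_option autoImplicit false

open MeasureTheory Set Topology

namespace Pool.Agent.Helper3.FKG

lemma deriv_Q {n : ℕ} (f : ℝ → ℝ → ℝ) (c s : ℝ) {x : Fin n → ℝ}
    (hf : ∀ j : Fin n, HasDerivAt (fun r => f r (x j)) (f s (x j) * (c * (x j + s)⁻¹)) s) :
    HasDerivAt (fun r => Q (f r) x) (c * (Q (f s) x * St s x)) s := by
  have h := HasDerivAt.fun_finsetProd (u := Finset.univ) (f := fun (j : Fin n) (r : ℝ) => f r (x j))
    (fun j _ => hf j)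
  have h2 := h.const_mul (Vd x)
  refine HasDerivAt.congr_deriv h2 ?_
  unfold St Q
  rw [Finset.mul_sum, Finset.mul_sum, Finset.mul_sum]
  refine Finset.sum_congr rfl fun i _ => ?_
  rw [smul_eq_mul, ← Finset.prod_erase_mul (Finset.univ) (fun j => f s (x j)) (Finset.mem_univ i)]
  ring

lemma deriv_wF (u s : ℝ) (h : 0 < u + s) :
    HasDerivAt (fun r => wF r u) (wF s u * (-(1 / 2) * (u + s)⁻¹)) s := by
  have h1 : HasDerivAt (fun r : ℝ => u + r) 1 s := (hasDerivAt_id s).const_add u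
  have h2 := (h1.sqrt h.ne').inv (Real.sqrt_pos.2 h).ne'
  have h3 := h2.const_mul (Real.exp (-u))
  refine HasDerivAt.congr_deriv h3 ?_
  have a1 : 0 < Real.sqrt (u + s) := Real.sqrt_pos.2 h
  have a2 : Real.sqrt (u + s) ^ 2 = u + s := Real.sq_sqrt h.le
  unfold wF
  rw [a2]
  field_simp

lemma deriv_wG (u s : ℝ) (h : 0 < u + s) :
    HasDerivAt (fun r => wG r u) (wG s u * ((1 / 2) * (u + s)⁻¹)) s := by
  have h1 : HasDerivAt (fun r : ℝ => u + r) 1 s := (hasDerivAt_id s).const_add u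
  have h2 := h1.sqrt h.ne'
  have h3 := h2.const_mul (Real.exp (-u))
  refine HasDerivAt.congr_deriv h3 ?_
  have a1 : 0 < Real.sqrt (u + s) := Real.sqrt_pos.2 h
  have a2 : Real.sqrt (u + s) * Real.sqrt (u + s) = u + s := Real.mul_self_sqrt h.le
  unfold wG
  rw [mul_assoc]
  congr 1
  have a3 : (u + s)⁻¹ = (Real.sqrt (u + s))⁻¹ * (Real.sqrt (u + s))⁻¹ := by
    rw [← mul_inv, a2]
  rw [a3]
  field_simp

lemma Q_le {n : ℕ} {w1 w2 : ℝ → ℝ} (h0 : ∀ u, 0 < u → 0 ≤ w1 u) (h : ∀ u, 0 < u → w1 u ≤ w2 u)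
    {x : Fin n → ℝ} (hx : ∀ i, 0 < x i) : Q w1 x ≤ Q w2 x := by
  unfold Q
  refine mul_le_mul_of_nonneg_left ?_ (Vd_nonneg x)
  exact Finset.prod_le_prod (fun j _ => h0 _ (hx j)) fun j _ => h _ (hx j)

lemma Q_nonneg' {n : ℕ} {w : ℝ → ℝ} (hw : ∀ u, 0 < u → 0 ≤ w u) {x : Fin n → ℝ}
    (hx : ∀ i, 0 < x i) : 0 ≤ Q w x :=
  mul_nonneg (Vd_nonneg x) (Finset.prod_nonneg fun j _ => (hw _ (hx j)))

theorem hasDerivAt_F {n : ℕ} {t : ℝ} (ht : 0 < t) :
    HasDerivAt (fun r => ∫ x in Orth n, Q (wF r) x)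
      (-(1 / 2) * ∫ x in Orth n, Q (wF t) x * St t x) t := by
  have hs : Ioi (t / 2) ∈ 𝓝 t := Ioi_mem_nhds (by linarith)
  have ht2 : 0 < t / 2 := by linarith
  have h := (hasDerivAt_integral_of_dominated_loc_of_deriv_le (μ := volume.restrict (Orth n))
    (F := fun (r : ℝ) (x : Fin n → ℝ) => Q (wF r) x)
    (F' := fun (r : ℝ) (x : Fin n → ℝ) => -(1 / 2) * (Q (wF r) x * St r x))
    (bound := fun x => (1 / 2) * (Q (wF (t / 2)) x * (n / (t / 2))))
    hs ?_ (int_F ht.le) ?_ ?_ ?_ ?_).2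
  · rwa [integral_const_mul] at h
  · exact Filter.Eventually.of_forall fun r => (measurable_Q (wF_meas r)).aestronglyMeasurable
  · exact (((measurable_Q (wF_meas t)).mul (St_meas t)).const_mul _).aestronglyMeasurable
  · rw [ae_restrict_iff' (measurableSet_Orth n)]
    refine ae_of_all _ fun x hx r hr => ?_
    rw [mem_Orth] at hx
    have hr0 : t / 2 < r := hr
    have hr1 : 0 < r := by linarith
    have b1 : Q (wF r) x ≤ Q (wF (t / 2)) x := by
      refine Q_le (fun u hu => (wF_pos hr1.le u hu).le) (fun u hu => ?_) hx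
      unfold wF
      refine mul_le_mul_of_nonneg_left ?_ (Real.exp_pos _).le
      exact inv_anti₀ (Real.sqrt_pos.2 (by linarith)) (Real.sqrt_le_sqrt (by linarith))
    have b2 : 0 ≤ Q (wF r) x := Q_nonneg (wF_pos hr1.le) hx
    have b3 : St r x ≤ n / (t / 2) :=
      (St_le hr1 hx).trans (div_le_div_of_nonneg_left (by positivity) ht2 hr0.le)
    have b4 := St_nonneg hr1 hx
    rw [norm_mul, Real.norm_eq_abs, Real.norm_eq_abs, abs_of_nonneg (mul_nonneg b2 b4)]
    norm_num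
    exact mul_le_mul b1 b3 b4 (b2.trans b1)
  · exact ((int_F ht2.le).mul_const _).const_mul _
  · rw [ae_restrict_iff' (measurableSet_Orth n)]
    refine ae_of_all _ fun x hx r hr => ?_
    rw [mem_Orth] at hx
    have hr0 : t / 2 < r := hr
    exact deriv_Q wF (-(1 / 2)) r fun j => deriv_wF (x j) r (by linarith [hx j])

theorem hasDerivAt_G {n : ℕ} {t : ℝ} (ht : 0 < t) :
    HasDerivAt (fun r => ∫ x in Orth n, Q (wG r) x)
      ((1 / 2) * ∫ x in Orth n, Q (wG t) x * St t x) t := by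
  have hs : Ioo (t / 2) (2 * t) ∈ 𝓝 t := Ioo_mem_nhds (by linarith) (by linarith)
  have ht2 : 0 < t / 2 := by linarith
  have hG0 : ∀ r u : ℝ, 0 ≤ wG r u := fun r u => by unfold wG; positivity
  have h := (hasDerivAt_integral_of_dominated_loc_of_deriv_le (μ := volume.restrict (Orth n))
    (F := fun (r : ℝ) (x : Fin n → ℝ) => Q (wG r) x)
    (F' := fun (r : ℝ) (x : Fin n → ℝ) => (1 / 2) * (Q (wG r) x * St r x))
    (bound := fun x => (1 / 2) * (Q (wG (2 * t)) x * (n / (t / 2))))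
    hs ?_ (int_G ht.le) ?_ ?_ ?_ ?_).2
  · rwa [integral_const_mul] at h
  · refine Filter.Eventually.of_forall fun r => (measurable_Q ?_).aestronglyMeasurable
    unfold wG
    fun_prop
  · refine (((measurable_Q ?_).mul (St_meas t)).const_mul _).aestronglyMeasurable
    unfold wG
    fun_prop
  · rw [ae_restrict_iff' (measurableSet_Orth n)]
    refine ae_of_all _ fun x hx r hr => ?_
    rw [mem_Orth] at hx
    have hr0 : t / 2 < r := hr.1
    have hr2 : r < 2 * t := hr.2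
    have hr1 : 0 < r := by linarith
    have b1 : Q (wG r) x ≤ Q (wG (2 * t)) x := by
      refine Q_le (fun u _ => hG0 r u) (fun u hu => ?_) hx
      unfold wG
      refine mul_le_mul_of_nonneg_left ?_ (Real.exp_pos _).le
      exact Real.sqrt_le_sqrt (by linarith)
    have b2 : 0 ≤ Q (wG r) x := Q_nonneg' (fun u _ => hG0 r u) hx
    have b3 : St r x ≤ n / (t / 2) :=
      (St_le hr1 hx).trans (div_le_div_of_nonneg_left (by positivity) ht2 hr0.le)
    have b4 := St_nonneg hr1 hx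
    rw [norm_mul, Real.norm_eq_abs, Real.norm_eq_abs, abs_of_nonneg (mul_nonneg b2 b4)]
    norm_num
    exact mul_le_mul b1 b3 b4 (b2.trans b1)
  · exact ((int_G (by linarith)).mul_const _).const_mul _
  · rw [ae_restrict_iff' (measurableSet_Orth n)]
    refine ae_of_all _ fun x hx r hr => ?_
    rw [mem_Orth] at hx
    have hr0 : t / 2 < r := hr.1
    exact deriv_Q wG (1 / 2) r fun j => deriv_wG (x j) r (by linarith [hx j])

end Pool.Agent.Helper3.FKG
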