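import Mathlib

set_option autoImplicit false

open MeasureTheory ENNReal Set

namespace Pool.Agent.Helper3.FKG

lemma pair_real {a b c d : ℝ} (hc : 0 ≤ c) (hd : 0 ≤ d)
    (h1 : a ≤ c) (h2 : b ≤ c) (h3 : a * b ≤ c * d) : a + b ≤ c + d := by
  rcases eq_or_lt_of_le hc with h | h
  · linarith
  · have h4 : 0 ≤ (c - a) * (c - b) := mul_nonneg (by linarith) (by linarith)
    have h5 : c * (a + b) ≤ c * (c + d) := by nlinarith
    exact le_of_mul_le_mul_left h5 h

lemma pair_ennreal {A B C D : ℝ≥0∞} (h1 : A ≤ C) (h2 : B ≤ C) (h3 : A * B ≤ C * D) :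
    A + B ≤ C + D := by
  by_cases hC : C = ∞
  · simp [hC]
  by_cases hD : D = ∞
  · simp [hD]
  have hA : A ≠ ∞ := ne_top_of_le_ne_top hC h1
  have hB : B ≠ ∞ := ne_top_of_le_ne_top hC h2
  lift A to NNReal using hA
  lift B to NNReal using hB
  lift C to NNReal using hC
  lift D to NNReal using hD
  norm_cast at *
  have := pair_real C.coe_nonneg D.coe_nonneg
    (by exact_mod_cast h1) (by exact_mod_cast h2) (by exact_mod_cast h3)
  exact_mod_cast this

lemma four_one {α : Type*} [MeasurableSpace α] [LinearOrder α] (μ : Measure α) [SFinite μ]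
    (g1 g2 g3 g4 : α → ℝ≥0∞) (m1 : Measurable g1) (m2 : Measurable g2) (m3 : Measurable g3)
    (m4 : Measurable g4)
    (h : ∀ a b, g1 a * g2 b ≤ g3 (a ⊔ b) * g4 (a ⊓ b)) :
    (∫⁻ a, g1 a ∂μ) * (∫⁻ b, g2 b ∂μ) ≤ (∫⁻ a, g3 a ∂μ) * (∫⁻ b, g4 b ∂μ) := by
  have key0 : ∀ a b, a ≤ b → g1 a * g2 b + g1 b * g2 a ≤ g3 a * g4 b + g3 b * g4 a := by
    intro a b hab
    have h1 : g1 a * g2 b ≤ g3 b * g4 a := by simpa [hab] using h a b
    have h2 : g1 b * g2 a ≤ g3 b * g4 a := by simpa [hab] using h b a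
    have h3 : (g1 a * g2 b) * (g1 b * g2 a) ≤ (g3 b * g4 a) * (g3 a * g4 b) := by
      have ha : g1 a * g2 a ≤ g3 a * g4 a := by simpa using h a a
      have hb : g1 b * g2 b ≤ g3 b * g4 b := by simpa using h b b
      calc (g1 a * g2 b) * (g1 b * g2 a) = (g1 a * g2 a) * (g1 b * g2 b) := by ring
        _ ≤ (g3 a * g4 a) * (g3 b * g4 b) := mul_le_mul' ha hb
        _ = _ := by ring
    calc g1 a * g2 b + g1 b * g2 a ≤ g3 b * g4 a + g3 a * g4 b := pair_ennreal h1 h2 h3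
      _ = _ := add_comm _ _
  have key : ∀ a b, g1 a * g2 b + g1 b * g2 a ≤ g3 a * g4 b + g3 b * g4 a := by
    intro a b
    rcases le_total a b with hab | hab
    · exact key0 a b hab
    · calc g1 a * g2 b + g1 b * g2 a = g1 b * g2 a + g1 a * g2 b := add_comm _ _
        _ ≤ g3 b * g4 a + g3 a * g4 b := key0 b a hab
        _ = _ := add_comm _ _
  have e : ∀ (u v : α → ℝ≥0∞), Measurable u → Measurable v →
      ∫⁻ a, ∫⁻ b, (u a * v b + u b * v a) ∂μ ∂μ
        = 2 * ((∫⁻ a, u a ∂μ) * ∫⁻ b, v b ∂μ) := by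
    intro u v hu hv
    have : ∀ a, ∫⁻ b, (u a * v b + u b * v a) ∂μ
        = u a * (∫⁻ b, v b ∂μ) + (∫⁻ b, u b ∂μ) * v a := by
      intro a
      rw [lintegral_add_left (hv.const_mul _), lintegral_const_mul _ hv, lintegral_mul_const _ hu]
    simp_rw [this]
    rw [lintegral_add_left (hu.mul_const _), lintegral_mul_const _ hu, lintegral_const_mul _ hv]
    ring
  have hle : ∫⁻ a, ∫⁻ b, (g1 a * g2 b + g1 b * g2 a) ∂μ ∂μ
      ≤ ∫⁻ a, ∫⁻ b, (g3 a * g4 b + g3 b * g4 a) ∂μ ∂μ :=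
    lintegral_mono fun a => lintegral_mono fun b => key a b
  rw [e g1 g2 m1 m2, e g3 g4 m3 m4] at hle
  exact (ENNReal.mul_le_mul_iff_right (by norm_num) (by norm_num)).1 hle

lemma symm_eq_cons {n : ℕ} (z : ℝ × (Fin n → ℝ)) :
    (MeasurableEquiv.piFinSuccAbove (fun _ : Fin (n + 1) => ℝ) 0).symm z
      = (Fin.cons z.1 z.2 : Fin (n + 1) → ℝ) := by
  simp [MeasurableEquiv.piFinSuccAbove, Fin.insertNthEquiv, Fin.insertNth_zero']

lemma lintegral_succ {n : ℕ} (f : (Fin (n + 1) → ℝ) → ℝ≥0∞) (hf : Measurable f) :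
    ∫⁻ x, f x = ∫⁻ y : Fin n → ℝ, ∫⁻ a : ℝ, f (Fin.cons a y) := by
  have h := (volume_preserving_piFinSuccAbove (fun _ : Fin (n + 1) => ℝ) 0).symm
  rw [← h.lintegral_comp hf]
  have hm : Measurable fun z : ℝ × (Fin n → ℝ) =>
      f ((MeasurableEquiv.piFinSuccAbove (fun _ : Fin (n + 1) => ℝ) 0).symm z) :=
    hf.comp (MeasurableEquiv.measurable _)
  rw [Measure.volume_eq_prod, lintegral_prod_symm _ hm.aemeasurable]
  simp only [symm_eq_cons]

lemma measurable_cons_left {n : ℕ} (y : Fin n → ℝ) :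
    Measurable fun a : ℝ => (Fin.cons a y : Fin (n + 1) → ℝ) := by
  rw [measurable_pi_iff]
  intro i
  refine Fin.cases ?_ ?_ i
  · simpa using measurable_id'
  · intro j; simp

lemma measurable_lint {n : ℕ} (f : (Fin (n + 1) → ℝ) → ℝ≥0∞) (hf : Measurable f) :
    Measurable fun y : Fin n → ℝ => ∫⁻ a : ℝ, f (Fin.cons a y) := by
  have hm : Measurable fun z : ℝ × (Fin n → ℝ) =>
      f ((MeasurableEquiv.piFinSuccAbove (fun _ : Fin (n + 1) => ℝ) 0).symm z) :=
    hf.comp (MeasurableEquiv.measurable _)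
  have h := Measurable.lintegral_prod_left' (μ := (volume : Measure ℝ)) hm
  simpa only [symm_eq_cons] using h

/-- The continuous four functions theorem on `ℝⁿ`. -/
theorem four_functions (n : ℕ) : ∀ (f1 f2 f3 f4 : (Fin n → ℝ) → ℝ≥0∞),
    Measurable f1 → Measurable f2 → Measurable f3 → Measurable f4 →
    (∀ x y, f1 x * f2 y ≤ f3 (x ⊔ y) * f4 (x ⊓ y)) →
    (∫⁻ x, f1 x) * (∫⁻ x, f2 x) ≤ (∫⁻ x, f3 x) * ∫⁻ x, f4 x := by
  induction n with
  | zero =>
    intro f1 f2 f3 f4 m1 m2 m3 m4 h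
    have hv : (volume : Measure (Fin 0 → ℝ)) = Measure.dirac 0 := by
      rw [volume_pi]
      exact Measure.pi_of_empty _ _
    rw [hv]
    simp only [lintegral_dirac]
    simpa using h 0 0
  | succ n ih =>
    intro f1 f2 f3 f4 m1 m2 m3 m4 h
    rw [lintegral_succ f1 m1, lintegral_succ f2 m2, lintegral_succ f3 m3, lintegral_succ f4 m4]
    apply ih _ _ _ _ (measurable_lint f1 m1) (measurable_lint f2 m2) (measurable_lint f3 m3)
      (measurable_lint f4 m4)
    intro x y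
    apply four_one volume _ _ _ _ (m1.comp (measurable_cons_left x))
      (m2.comp (measurable_cons_left y)) (m3.comp (measurable_cons_left _))
      (m4.comp (measurable_cons_left _))
    intro a b
    have e1 : (Fin.cons a x : Fin (n + 1) → ℝ) ⊔ Fin.cons b y = Fin.cons (a ⊔ b) (x ⊔ y) := by
      funext i
      refine Fin.cases ?_ ?_ i
      · simp
      · intro j; simp
    have e2 : (Fin.cons a x : Fin (n + 1) → ℝ) ⊓ Fin.cons b y = Fin.cons (a ⊓ b) (x ⊓ y) := by
      funext i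
      refine Fin.cases ?_ ?_ i
      · simp
      · intro j; simp
    have := h (Fin.cons a x) (Fin.cons b y)
    rw [e1, e2] at this
    exact this

end Pool.Agent.Helper3.FKG
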