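import Pool.Agent.Helper3.FKG.Strict

set_option autoImplicit false

open MeasureTheory ENNReal Set

namespace Pool.Agent.Helper3.FKG

lemma pow_exp_bound (N : ℕ) {u : ℝ} (hu : 0 ≤ u) :
    Real.exp (-u) * (1 + u) ^ N
      ≤ (2 ^ N * N.factorial * Real.exp (1 / 2)) * Real.exp (-(1 / 2) * u) := by
  have h1 : ((1 + u) / 2) ^ N / N.factorial ≤ Real.exp ((1 + u) / 2) :=
    Real.pow_div_factorial_le_exp _ (by positivity) N
  have hN : (0 : ℝ) < N.factorial := by exact_mod_cast N.factorial_pos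
  have h2 : (1 + u) ^ N ≤ 2 ^ N * N.factorial * Real.exp ((1 + u) / 2) := by
    rw [div_pow, div_div, div_le_iff₀ (by positivity)] at h1
    linarith [mul_comm (Real.exp ((1 + u) / 2)) (2 ^ N * (N.factorial : ℝ))]
  calc Real.exp (-u) * (1 + u) ^ N
      ≤ Real.exp (-u) * (2 ^ N * N.factorial * Real.exp ((1 + u) / 2)) :=
        mul_le_mul_of_nonneg_left h2 (Real.exp_pos _).le
    _ = 2 ^ N * N.factorial * (Real.exp (-u) * Real.exp ((1 + u) / 2)) := by ring
    _ = 2 ^ N * N.factorial * (Real.exp (1 / 2) * Real.exp (-(1 / 2) * u)) := by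
        rw [← Real.exp_add, ← Real.exp_add]
        congr 2
        ring
    _ = _ := by ring

lemma int_one (N : ℕ) :
    IntegrableOn (fun u : ℝ => Real.exp (-u) * (1 + u) ^ N * (Real.sqrt u)⁻¹) (Ioi 0) := by
  have h := integrableOn_rpow_mul_exp_neg_mul_rpow (p := 1) (s := -(1 / 2)) (b := 1 / 2)
    (by norm_num) (by norm_num) (by norm_num)
  have h2 := h.const_mul (2 ^ N * N.factorial * Real.exp (1 / 2))
  refine Integrable.mono' h2 ?_ ?_
  · apply Measurable.aestronglyMeasurable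
    fun_prop
  · rw [ae_restrict_iff' measurableSet_Ioi]
    refine ae_of_all _ fun u hu => ?_
    have hu0 : (0 : ℝ) < u := hu
    have h3 : (Real.sqrt u)⁻¹ = u ^ (-(1 / 2) : ℝ) := by
      rw [Real.rpow_neg hu0.le, Real.sqrt_eq_rpow]
    rw [Real.norm_of_nonneg (by positivity), h3, Real.rpow_one]
    calc Real.exp (-u) * (1 + u) ^ N * u ^ (-(1 / 2) : ℝ)
        ≤ (2 ^ N * N.factorial * Real.exp (1 / 2)) * Real.exp (-(1 / 2) * u)
          * u ^ (-(1 / 2) : ℝ) :=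
          mul_le_mul_of_nonneg_right (pow_exp_bound N hu0.le) (by positivity)
      _ = _ := by ring

/-- `∏ (1 + x j)` -/
def Mx {n : ℕ} (x : Fin n → ℝ) : ℝ := ∏ j, (1 + x j)

lemma int_dom (n N : ℕ) :
    IntegrableOn (fun x : Fin n → ℝ =>
      ∏ j, (Real.exp (-x j) * (1 + x j) ^ N * (Real.sqrt (x j))⁻¹)) (Orth n) := by
  unfold IntegrableOn Orth
  rw [volume_pi, Measure.restrict_pi_pi]
  exact Integrable.fintype_prod (f := fun (_ : Fin n) (u : ℝ) =>
    Real.exp (-u) * (1 + u) ^ N * (Real.sqrt u)⁻¹) fun _ => int_one N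

lemma one_le_prod_aux {n : ℕ} (s : Finset (Fin n)) {x : Fin n → ℝ} (hx : ∀ i, 0 < x i) :
    1 ≤ ∏ j ∈ s, (1 + x j) :=
  Finset.prod_induction _ (fun r => 1 ≤ r) (fun _ _ ha hb => one_le_mul_of_one_le_of_one_le ha hb)
    le_rfl (fun j _ => by linarith [hx j])

lemma le_Mx {n : ℕ} {x : Fin n → ℝ} (hx : ∀ i, 0 < x i) (i : Fin n) : x i ≤ Mx x := by
  unfold Mx
  rw [← Finset.mul_prod_erase _ _ (Finset.mem_univ i)]
  have h := one_le_prod_aux (Finset.univ.erase i) hx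
  nlinarith [hx i]

lemma one_le_Mx {n : ℕ} {x : Fin n → ℝ} (hx : ∀ i, 0 < x i) : 1 ≤ Mx x :=
  one_le_prod_aux _ hx

/-- exponent -/
def Nn (n : ℕ) : ℕ := ∑ k : Fin n, 2 * (Finset.Ioi k).card

lemma Vd_le {n : ℕ} {x : Fin n → ℝ} (hx : ∀ i, 0 < x i) : Vd x ≤ Mx x ^ Nn n := by
  unfold Vd Nn
  rw [← Finset.prod_pow_eq_pow_sum]
  refine Finset.prod_le_prod (fun k _ => Finset.prod_nonneg fun _ _ => sq_nonneg _) fun k _ => ?_
  calc ∏ j ∈ Finset.Ioi k, (x j - x k) ^ 2 ≤ ∏ j ∈ Finset.Ioi k, (Mx x) ^ 2 := by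
        refine Finset.prod_le_prod (fun _ _ => sq_nonneg _) fun j _ => ?_
        have h1 := le_Mx hx j
        have h2 := le_Mx hx k
        have h3 := hx j
        have h4 := hx k
        apply sq_le_sq'
        · linarith
        · linarith
    _ = Mx x ^ (2 * (Finset.Ioi k).card) := by
        rw [Finset.prod_const, ← pow_mul]

lemma measurable_Q {n : ℕ} {w : ℝ → ℝ} (hwm : Measurable w) :
    Measurable (Q w : (Fin n → ℝ) → ℝ) := by
  unfold Q
  refine continuous_Vd.measurable.mul ?_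
  exact Finset.measurable_prod _ fun j _ => hwm.comp (measurable_pi_apply j)

lemma measurableSet_Orth (n : ℕ) : MeasurableSet (Orth n) :=
  MeasurableSet.univ_pi fun _ => measurableSet_Ioi

lemma mem_Orth {n : ℕ} {x : Fin n → ℝ} : x ∈ Orth n ↔ ∀ i, 0 < x i := by
  simp [Orth]

theorem int_gen {n : ℕ} {w : ℝ → ℝ} (hwm : Measurable w) (hw : ∀ u, 0 < u → 0 < w u)
    (hwb : ∀ u, 0 < u → w u ≤ Real.exp (-u) * (Real.sqrt u)⁻¹)
    {g : (Fin n → ℝ) → ℝ} (hgm : Measurable g) (c : ℝ) (m : ℕ)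
    (hg : ∀ x : Fin n → ℝ, (∀ i, 0 < x i) → |g x| ≤ c * Mx x ^ m) :
    IntegrableOn (fun x => Q w x * g x) (Orth n) := by
  have h := (int_dom n (Nn n + m)).const_mul c
  refine Integrable.mono' h ((measurable_Q hwm).mul hgm).aestronglyMeasurable ?_
  rw [ae_restrict_iff' (measurableSet_Orth n)]
  refine ae_of_all _ fun x hx => ?_
  rw [mem_Orth] at hx
  have hM := one_le_Mx hx
  have hP : ∏ j, w (x j) ≤ ∏ j, (Real.exp (-x j) * (Real.sqrt (x j))⁻¹) :=
    Finset.prod_le_prod (fun j _ => (hw _ (hx j)).le) fun j _ => hwb _ (hx j)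
  have hP0 : 0 ≤ ∏ j, w (x j) := Finset.prod_nonneg fun j _ => (hw _ (hx j)).le
  have hV := Vd_le hx
  rw [Real.norm_eq_abs, abs_mul, abs_of_nonneg (Q_nonneg hw hx)]
  have hc : 0 ≤ c * Mx x ^ m := (abs_nonneg _).trans (hg x hx)
  calc Q w x * |g x| ≤ (Mx x ^ Nn n * ∏ j, (Real.exp (-x j) * (Real.sqrt (x j))⁻¹))
        * (c * Mx x ^ m) := by
        refine mul_le_mul ?_ (hg x hx) (abs_nonneg _) ?_
        · exact mul_le_mul hV hP hP0 (by positivity)
        · refine mul_nonneg (by positivity) (Finset.prod_nonneg fun j _ => ?_)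
          positivity
    _ = c * (Mx x ^ (Nn n + m) * ∏ j, (Real.exp (-x j) * (Real.sqrt (x j))⁻¹)) := by
        rw [pow_add]; ring
    _ = c * ∏ j, (Real.exp (-x j) * (1 + x j) ^ (Nn n + m) * (Real.sqrt (x j))⁻¹) := by
        congr 1
        unfold Mx
        rw [← Finset.prod_pow, ← Finset.prod_mul_distrib]
        refine Finset.prod_congr rfl fun j _ => ?_
        ring

end Pool.Agent.Helper3.FKG
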