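import Pool.Agent.Helper3.FKG.Chamber

set_option autoImplicit false

open MeasureTheory ENNReal Set

namespace Pool.Agent.Helper3.FKG

lemma integral_pos_Ch {n : ℕ} {f : (Fin n → ℝ) → ℝ} (hf0 : ∀ x ∈ Ch n, 0 ≤ f x)
    (hfi : IntegrableOn f (Ch n)) (hfc : ContinuousOn f (ChU n)) {x0 : Fin n → ℝ}
    (hx0 : x0 ∈ ChU n) (hfx : 0 < f x0) : 0 < ∫ x in Ch n, f x := by
  rw [setIntegral_pos_iff_support_of_nonneg_ae
    ((ae_restrict_iff' (measurableSet_Ch n)).2 (ae_of_all _ hf0)) hfi]
  have ho : IsOpen (ChU n ∩ f ⁻¹' (Ioi 0)) := hfc.isOpen_inter_preimage (isOpen_ChU n) isOpen_Ioi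
  have hne : (ChU n ∩ f ⁻¹' (Ioi 0)).Nonempty := ⟨x0, hx0, hfx⟩
  refine (ho.measure_pos volume hne).trans_le (measure_mono ?_)
  rintro x ⟨h1, h2⟩
  exact ⟨ne_of_gt h2, ChU_subset n h1⟩

lemma Q_pos {n : ℕ} {w : ℝ → ℝ} (hw : ∀ u, 0 < u → 0 < w u) {x : Fin n → ℝ}
    (hx : x ∈ ChU n) : 0 < Q w x :=
  mul_pos (Vd_pos hx.2) (Finset.prod_pos fun j _ => hw _ (hx.1 j))

lemma continuousOn_Q {n : ℕ} {w : ℝ → ℝ} (hwc : ContinuousOn w (Ioi 0)) :
    ContinuousOn (Q w : (Fin n → ℝ) → ℝ) (ChU n) := by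
  unfold Q
  refine continuous_Vd.continuousOn.mul ?_
  refine continuousOn_finsetProd _ fun j _ => ?_
  exact hwc.comp (continuous_apply j).continuousOn fun x hx => hx.1 j

theorem fkg_strict {n : ℕ} {w : ℝ → ℝ} (hwc : ContinuousOn w (Ioi 0)) (hwm : Measurable w)
    (hw : ∀ u, 0 < u → 0 < w u)
    {g h : (Fin n → ℝ) → ℝ} (hgm : Measurable g) (hhm : Measurable h) (K δ : ℝ) (hδ : 0 < δ)
    (hg0 : ∀ x ∈ Ch n, -K ≤ g x) (hk0 : ∀ x ∈ Ch n, -K ≤ h x - δ * g x)
    (hg : MonotoneOn g (Ch n)) (hk : MonotoneOn (fun x => h x - δ * g x) (Ch n))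
    (hgc : ContinuousOn g (ChU n)) {a b : Fin n → ℝ} (ha : a ∈ ChU n) (hb : b ∈ ChU n)
    (hab : g a ≠ g b)
    (i1 : IntegrableOn (Q w) (Ch n)) (ig : IntegrableOn (fun x => Q w x * g x) (Ch n))
    (ih : IntegrableOn (fun x => Q w x * h x) (Ch n))
    (igh : IntegrableOn (fun x => Q w x * (g x * h x)) (Ch n))
    (igg : IntegrableOn (fun x => Q w x * (g x * g x)) (Ch n)) :
    (∫ x in Ch n, Q w x * g x) * (∫ x in Ch n, Q w x * h x)
      < (∫ x in Ch n, Q w x) * ∫ x in Ch n, Q w x * (g x * h x) := by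
  have hQ0 : ∀ x ∈ Ch n, 0 ≤ Q w x := fun x hx => Q_nonneg hw hx.1
  have e1 : (fun x => Q w x * (h x - δ * g x))
      = fun x : Fin n → ℝ => Q w x * h x - δ * (Q w x * g x) := by
    funext x; ring
  have e2 : (fun x => Q w x * (g x * (h x - δ * g x)))
      = fun x : Fin n → ℝ => Q w x * (g x * h x) - δ * (Q w x * (g x * g x)) := by
    funext x; ring
  have main := fkg_bdd (g := g) (h := fun x => h x - δ * g x) hwm hw hgm
    (hhm.sub (hgm.const_mul δ)) K hg0 hk0 hg hk i1 ig (by rw [e1]; exact ih.sub (ig.const_mul δ))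
    (by rw [e2]; exact igh.sub (igg.const_mul δ))
  rw [e1, e2, integral_sub ih (ig.const_mul δ), integral_sub igh (igg.const_mul δ),
    integral_const_mul, integral_const_mul] at main
  set A := ∫ x in Ch n, Q w x with hA
  set Bg := ∫ x in Ch n, Q w x * g x with hBg
  set Bh := ∫ x in Ch n, Q w x * h x with hBh
  set M := ∫ x in Ch n, Q w x * (g x * h x) with hM
  set N := ∫ x in Ch n, Q w x * (g x * g x) with hN
  have hApos : 0 < A := integral_pos_Ch hQ0 i1 (continuousOn_Q hwc) ha (Q_pos hw ha)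
  -- variance
  have e3 : (fun x => Q w x * (A * g x - Bg) ^ 2) = fun x : Fin n → ℝ =>
      (A ^ 2 * (Q w x * (g x * g x)) - 2 * A * Bg * (Q w x * g x)) + Bg ^ 2 * Q w x := by
    funext x; ring
  have k1 : IntegrableOn (fun x : Fin n → ℝ =>
      A ^ 2 * (Q w x * (g x * g x)) - 2 * A * Bg * (Q w x * g x)) (Ch n) :=
    (igg.const_mul _).sub (ig.const_mul _)
  have i3 : IntegrableOn (fun x => Q w x * (A * g x - Bg) ^ 2) (Ch n) := by
    rw [e3]; exact k1.add (i1.const_mul _)
  have hvar : ∫ x in Ch n, Q w x * (A * g x - Bg) ^ 2 = A * (A * N - Bg ^ 2) := by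
    rw [e3, integral_add k1 (i1.const_mul _), integral_sub (igg.const_mul _) (ig.const_mul _),
      integral_const_mul, integral_const_mul, integral_const_mul]
    ring
  have hcont : ContinuousOn (fun x => Q w x * (A * g x - Bg) ^ 2) (ChU n) :=
    (continuousOn_Q hwc).mul (((continuousOn_const.mul hgc).sub continuousOn_const).pow 2)
  have hpos : 0 < ∫ x in Ch n, Q w x * (A * g x - Bg) ^ 2 := by
    have hnn : ∀ x ∈ Ch n, 0 ≤ Q w x * (A * g x - Bg) ^ 2 := fun x hx =>
      mul_nonneg (hQ0 x hx) (sq_nonneg _)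
    by_cases h1 : A * g a - Bg = 0
    · have h2 : A * g b - Bg ≠ 0 := by
        intro h2
        apply hab
        have : A * g a = A * g b := by linarith
        exact mul_left_cancel₀ hApos.ne' this
      refine integral_pos_Ch hnn i3 hcont hb ?_
      have := Q_pos hw hb
      positivity
    · refine integral_pos_Ch hnn i3 hcont ha ?_
      have := Q_pos hw ha
      positivity
  rw [hvar] at hpos
  have hv : 0 < A * N - Bg ^ 2 := by
    by_contra hcon
    push Not at hcon
    nlinarith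
  nlinarith [mul_pos hδ hv]

/-! ### Symmetrisation -/

lemma ae_ne {n : ℕ} (i j : Fin n) (hij : i ≠ j) : ∀ᵐ x : Fin n → ℝ, x i ≠ x j := by
  rw [ae_iff]
  simp only [not_not]
  have h := Measure.addHaar_submodule (volume : Measure (Fin n → ℝ))
    (LinearMap.ker (LinearMap.proj (R := ℝ) (φ := fun _ : Fin n => ℝ) i - LinearMap.proj j)) ?_
  · convert h using 2
    ext x
    simp [sub_eq_zero]
  · intro htop
    have : (Pi.single i 1 : Fin n → ℝ) ∈ LinearMap.ker
        (LinearMap.proj (R := ℝ) (φ := fun _ : Fin n => ℝ) i - LinearMap.proj j) := by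
      rw [htop]; trivial
    simp [hij.symm] at this

lemma ae_injective (n : ℕ) : ∀ᵐ x : Fin n → ℝ, Function.Injective x := by
  have h : ∀ᵐ x : Fin n → ℝ, ∀ i j, i ≠ j → x i ≠ x j := by
    rw [ae_all_iff]
    intro i
    rw [ae_all_iff]
    intro j
    by_cases hij : i = j
    · simp [hij]
    · filter_upwards [ae_ne i j hij] with x hx
      intro _
      exact hx
  filter_upwards [h] with x hx i j hij
  by_contra hne
  exact hx i j hne hij

/-- positive orthant -/
def Orth (n : ℕ) : Set (Fin n → ℝ) := Set.pi univ fun _ => Ioi 0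

lemma measurableSet_ChU (n : ℕ) : MeasurableSet (ChU n) := (isOpen_ChU n).measurableSet

lemma Ch_ae_eq (n : ℕ) : (Ch n : Set (Fin n → ℝ)) =ᵐ[volume] ChU n := by
  filter_upwards [ae_injective n] with x hx
  apply propext
  constructor
  · intro h
    exact ⟨h.1, h.2.strictMono_of_injective hx⟩
  · intro h
    exact ChU_subset n h

lemma congr_eq {n : ℕ} (σ : Equiv.Perm (Fin n)) :
    (fun x : Fin n → ℝ => x ∘ σ) = MeasurableEquiv.piCongrLeft (fun _ : Fin n => ℝ) σ.symm := by
  funext x i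
  have h := Equiv.piCongrLeft_apply_apply (fun _ : Fin n => ℝ) σ.symm x (σ i)
  simp only [Equiv.symm_apply_apply] at h
  exact h.symm

lemma preserve_perm {n : ℕ} (σ : Equiv.Perm (Fin n)) :
    MeasurePreserving (fun x : Fin n → ℝ => x ∘ σ) volume volume := by
  rw [congr_eq]
  exact volume_measurePreserving_piCongrLeft (fun _ : Fin n => ℝ) σ.symm

lemma emb_perm {n : ℕ} (σ : Equiv.Perm (Fin n)) :
    MeasurableEmbedding (fun x : Fin n → ℝ => x ∘ σ) := by
  rw [congr_eq]
  exact (MeasurableEquiv.piCongrLeft (fun _ : Fin n => ℝ) σ.symm).measurableEmbedding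

theorem symm_integral {n : ℕ} (Φ : (Fin n → ℝ) → ℝ)
    (hsymm : ∀ (σ : Equiv.Perm (Fin n)) (x : Fin n → ℝ), Φ (x ∘ σ) = Φ x)
    (hi : IntegrableOn Φ (Orth n)) :
    ∫ x in Orth n, Φ x = (n.factorial : ℝ) * ∫ x in Ch n, Φ x := by
  set s : Equiv.Perm (Fin n) → Set (Fin n → ℝ) := fun σ => (fun x => x ∘ σ) ⁻¹' (ChU n) with hs
  have hsm : ∀ σ, MeasurableSet (s σ) := fun σ =>
    (measurableSet_ChU n).preimage (preserve_perm σ).measurable
  have hdis : Pairwise (Function.onFun Disjoint s) := by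
    intro σ τ hne
    rw [Function.onFun, Set.disjoint_left]
    intro x h1 h2
    apply hne
    have e1 : StrictMono (x ∘ σ) := h1.2
    have e2 : StrictMono (x ∘ τ) := h2.2
    have hρ : StrictMono (fun i => σ.symm (τ i)) := by
      intro i j hij
      have h3 := e2 hij
      rw [← e1.lt_iff_lt]
      simpa using h3
    have hsurj : Function.Surjective (fun i => σ.symm (τ i)) :=
      σ.symm.surjective.comp τ.surjective
    have hO : hρ.orderIsoOfSurjective _ hsurj = OrderIso.refl _ := Subsingleton.elim _ _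
    apply Equiv.ext
    intro i
    have h4 : σ.symm (τ i) = i := by
      have := congrArg (fun e : Fin n ≃o Fin n => e i) hO
      simpa using this
    rw [Equiv.symm_apply_eq] at h4
    exact h4.symm
  have hsub : ∀ σ, s σ ⊆ Orth n := by
    intro σ x hx i _
    have := hx.1 (σ.symm i)
    simpa using this
  have hun : (Orth n : Set (Fin n → ℝ)) =ᵐ[volume] ⋃ σ, s σ := by
    filter_upwards [ae_injective n] with x hx
    apply propext
    constructor
    · intro h
      refine mem_iUnion.2 ⟨Tuple.sort x, fun i => ?_, ?_⟩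
      · exact h _ (mem_univ _)
      · exact (Tuple.monotone_sort x).strictMono_of_injective
          (hx.comp (Tuple.sort x).injective)
    · intro h
      obtain ⟨σ, hσ⟩ := mem_iUnion.1 h
      exact hsub σ hσ
  rw [setIntegral_congr_set hun, integral_iUnion_fintype hsm hdis fun σ => hi.mono_set (hsub σ)]
  have hone : ∀ σ, ∫ x in s σ, Φ x = ∫ x in Ch n, Φ x := by
    intro σ
    rw [setIntegral_congr_set (Ch_ae_eq n),
      ← (preserve_perm σ).setIntegral_preimage_emb (emb_perm σ) Φ (ChU n)]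
    refine setIntegral_congr_fun (hsm σ) fun x _ => ?_
    exact (hsymm σ x).symm
  simp only [hone, Finset.sum_const, Finset.card_univ, Fintype.card_perm, Fintype.card_fin,
    nsmul_eq_mul]

end Pool.Agent.Helper3.FKG
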